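import Pool.Agent.Work.MP_118406_da.Interface
import Pool.Agent.Work.MP_118406_si.All

set_option autoImplicit false

open scoped InnerProductSpace ComplexConjugate Topology BigOperators
open Set Filter Pool.SI

noncomputable section

namespace Pool.DA

theorem SUB_iff {k : ℕ} (T : Fk k →L[ℂ] Fk k) : HS T ↔
    Summable fun q : List (Fin k) × List (Fin k) => ‖(T (bs q.1) : Fk k) q.2‖ ^ 2 := by
  have e2 : ∀ v : List (Fin k),
      HasSum (fun u : List (Fin k) => ‖(T (bs v) : Fk k) u‖ ^ 2) (‖T (bs v)‖ ^ 2) := by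
    intro v
    have := lp.hasSum_norm (p := 2) (by norm_num) (T (bs v))
    simpa using this
  rw [summable_prod_of_nonneg (fun q => by positivity)]
  constructor
  · intro h
    exact ⟨fun v => (e2 v).summable, h.congr fun v => ((e2 v).tsum_eq).symm⟩
  · intro h
    exact h.2.congr fun v => (e2 v).tsum_eq

theorem SUB_swap {k : ℕ} (S T : Fk k →L[ℂ] Fk k)
    (h : ∀ u v : List (Fin k), ‖(S (bs v) : Fk k) u‖ = ‖(T (bs u) : Fk k) v‖) (hT : HS T) : HS S := by
  rw [SUB_iff] at hT ⊢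
  have h1 := (Equiv.prodComm (List (Fin k)) (List (Fin k))).summable_iff.2 hT
  refine h1.congr fun q => ?_
  simp only [Function.comp, Equiv.prodComm_apply, Prod.fst_swap, Prod.snd_swap]
  rw [h]

theorem SUB_adj {k : ℕ} (T : Fk k →L[ℂ] Fk k) (hT : HS T) : HS (star T) := by
  refine SUB_swap _ T (fun u v => ?_) hT
  rw [← bs_inner u, ← bs_inner v, ContinuousLinearMap.star_eq_adjoint,
    ContinuousLinearMap.adjoint_inner_right, norm_inner_symm]

theorem SUB_left {k : ℕ} (T x : Fk k →L[ℂ] Fk k) (hT : HS T) : HS (x * T) := by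
  have h1 : Summable fun v : List (Fin k) => ‖x‖ ^ 2 * ‖T (bs v)‖ ^ 2 := Summable.mul_left _ hT
  refine Summable.of_nonneg_of_le (fun v => by positivity) (fun v => ?_) h1
  rw [← mul_pow]
  exact pow_le_pow_left₀ (norm_nonneg _) (x.le_opNorm _) 2

theorem p_HSM : S_HSM := by
  intro k T x hT
  refine ⟨SUB_left T x hT, ?_⟩
  have h := SUB_adj _ (SUB_left _ (star x) (SUB_adj T hT))
  rwa [star_mul, star_star, star_star] at h

theorem p_DST : S_DST := by
  intro k x hx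
  refine ⟨star_mem hx.1, fun i => SUB_swap _ (dq i x) (fun u v => ?_) (hx.2 i)⟩
  rw [← bs_inner, ← bs_inner, t_ENT k _ (star_mem hx.1) i u v, t_ENT k x hx.1 i v u,
    ← (t_ALC k).2.1 x hx.1]
  have e : (u ++ i :: v.reverse).reverse = v ++ i :: u.reverse := by simp
  change ‖conj ((x (vac k)) (u ++ i :: v.reverse).reverse)‖ = _
  rw [e]
  simp

theorem SUB_add {k : ℕ} (S T : Fk k →L[ℂ] Fk k) (hS : HS S) (hT : HS T) : HS (S + T) := by
  have h1 : Summable fun v : List (Fin k) => 2 * ‖S (bs v)‖ ^ 2 + 2 * ‖T (bs v)‖ ^ 2 :=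
    (Summable.mul_left _ hS).add (Summable.mul_left _ hT)
  refine Summable.of_nonneg_of_le (fun v => by positivity) (fun v => ?_) h1
  have h2 : ‖(S + T) (bs v)‖ ≤ ‖S (bs v)‖ + ‖T (bs v)‖ := norm_add_le _ _
  have h3 : ‖(S + T) (bs v)‖ ^ 2 ≤ (‖S (bs v)‖ + ‖T (bs v)‖) ^ 2 :=
    pow_le_pow_left₀ (norm_nonneg _) h2 2
  nlinarith [sq_nonneg (‖S (bs v)‖ - ‖T (bs v)‖)]

theorem SUB_zero {k : ℕ} : HS (0 : Fk k →L[ℂ] Fk k) := by
  simp [HS]

theorem SUB_dmul {k : ℕ} (i : Fin k) (x y : Fk k →L[ℂ] Fk k) :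
    dq i (x * y) = dq i x * y + x * dq i y := by
  unfold dq
  noncomm_ring

theorem SUB_dadd {k : ℕ} (i : Fin k) (x y : Fk k →L[ℂ] Fk k) :
    dq i (x + y) = dq i x + dq i y := by
  unfold dq
  noncomm_ring

theorem SUB_dalg {k : ℕ} (i : Fin k) (c : ℂ) :
    dq i (algebraMap ℂ (Fk k →L[ℂ] Fk k) c) = 0 := by
  unfold dq
  rw [Algebra.commutes, sub_self]

theorem SUB_nuc {k : ℕ} (i j : Fin k) : HS (dq i (sc j : Fk k →L[ℂ] Fk k)) := by
  rw [(t_COM k).1 i j]
  split_ifs with h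
  · refine summable_of_ne_finset_zero (s := {[]}) fun w hw => ?_
    have hw' : w ≠ [] := by simpa using hw
    change ‖Pv k (bs w)‖ ^ 2 = 0
    have h1 : ⟪vac k, (bs w : Fk k)⟫_ℂ = 0 := by
      rw [← inner_conj_symm, bs_inner, vac, bs]
      simp [lp.single_apply, hw'.symm]
    simp only [Pv, ContinuousLinearMap.smulRight_apply, innerSL_apply_apply, h1, zero_smul, norm_zero]
    norm_num
  · exact SUB_zero

/-- The domain of the free difference quotient, as a *-subalgebra. -/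
def DirA (k : ℕ) : StarSubalgebra ℂ (Fk k →L[ℂ] Fk k) where
  carrier := Dir k
  mul_mem' := by
    intro x y hx hy
    refine ⟨mul_mem hx.1 hy.1, fun i => ?_⟩
    rw [SUB_dmul]
    exact SUB_add _ _ (p_HSM k _ _ (hx.2 i)).2 (p_HSM k _ _ (hy.2 i)).1
  add_mem' := by
    intro x y hx hy
    refine ⟨add_mem hx.1 hy.1, fun i => ?_⟩
    rw [SUB_dadd]
    exact SUB_add _ _ (hx.2 i) (hy.2 i)
  algebraMap_mem' := by
    intro c
    refine ⟨(Alg k).algebraMap_mem c, fun i => ?_⟩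
    rw [SUB_dalg]
    exact SUB_zero
  star_mem' := by
    intro x hx
    exact p_DST k x hx

theorem SUB_inv (k : ℕ) : InvCl (DirA k) := by
  intro x hx y h1 h2
  have hu : IsUnit x := ⟨⟨x, y, h1, h2⟩, rfl⟩
  have hcl : IsClosed ((Alg k : StarSubalgebra ℂ (Fk k →L[ℂ] Fk k)) : Set (Fk k →L[ℂ] Fk k)) :=
    StarSubalgebra.isClosed_topologicalClosure _
  have hy : y ∈ Alg k := by
    have h3 : IsUnit (⟨x, hx.1⟩ : Alg k) := by
      haveI := hcl
      exact ((Alg k).coe_isUnit (a := ⟨x, hx.1⟩)).1 hu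
    obtain ⟨u, hu'⟩ := h3
    have h4 : ((↑u⁻¹ : Alg k) : Fk k →L[ℂ] Fk k) = y := by
      have h5 : ((↑u⁻¹ : Alg k) : Fk k →L[ℂ] Fk k) * x = 1 := by
        have h6 : (↑u⁻¹ : Alg k) * ⟨x, hx.1⟩ = 1 := by rw [← hu']; exact u.inv_mul
        exact congrArg Subtype.val h6
      calc ((↑u⁻¹ : Alg k) : Fk k →L[ℂ] Fk k) = ((↑u⁻¹ : Alg k) : Fk k →L[ℂ] Fk k) * (x * y) := by
            rw [h1, mul_one]
        _ = y := by rw [← mul_assoc, h5, one_mul]
    rw [← h4]
    exact (↑u⁻¹ : Alg k).2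
  refine ⟨hy, fun i => ?_⟩
  have h6 : dq i x * y + x * dq i y = 0 := by
    rw [← SUB_dmul, h1]
    have := SUB_dalg (k := k) i 1
    rwa [map_one] at this
  have h7 : dq i y = (-y) * (dq i x * y) := by
    have h8 : x * dq i y = -(dq i x * y) := eq_neg_of_add_eq_zero_right h6
    calc dq i y = (y * x) * dq i y := by rw [h2, one_mul]
      _ = y * (x * dq i y) := mul_assoc _ _ _
      _ = (-y) * (dq i x * y) := by rw [h8]; noncomm_ring
  rw [h7]
  exact (p_HSM k _ _ (p_HSM k _ _ (hx.2 i)).2).1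

theorem p_SUB : S_SUB := fun k =>
  ⟨DirA k, rfl, fun j => ⟨sc_mem j, fun i => SUB_nuc i j⟩, SUB_inv k⟩

end Pool.DA
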