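import Mathlib

/-!
# Automatic contractivity and extension of *-homomorphisms on inverse closed *-subalgebras

`B` a *-subalgebra of a C*-algebra `E`, closed under inverses in `E`; `ψ` a unital *-homomorphism on `B`
with values in a C*-algebra. Then `‖ψ x‖ ≤ ‖x‖`, and `ψ` extends to the closure of `B`.
-/

set_option autoImplicit false

open Filter Topology

namespace Pool.DA

variable {E F : Type*} [CStarAlgebra E] [CStarAlgebra F]

/-- a unital *-homomorphism on a *-subalgebra -/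
structure HomOn (B : StarSubalgebra ℂ E) (ψ : E → F) : Prop where
  one : ψ 1 = 1
  add : ∀ x ∈ B, ∀ y ∈ B, ψ (x + y) = ψ x + ψ y
  mul : ∀ x ∈ B, ∀ y ∈ B, ψ (x * y) = ψ x * ψ y
  smul : ∀ c : ℂ, ∀ x ∈ B, ψ (c • x) = c • ψ x
  star : ∀ x ∈ B, ψ (star x) = star (ψ x)

theorem HomOn.sub {B : StarSubalgebra ℂ E} {ψ : E → F} (h : HomOn B ψ) {x y : E} (hx : x ∈ B)
    (hy : y ∈ B) : ψ (x - y) = ψ x - ψ y := by
  have e : x - y = x + (-1 : ℂ) • y := by rw [neg_one_smul, sub_eq_add_neg]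
  rw [e, h.add x hx _ (B.smul_mem hy _), h.smul _ y hy, neg_one_smul, sub_eq_add_neg]

theorem spec_sub {B : StarSubalgebra ℂ E} {ψ : E → F} (h : HomOn B ψ)
    (hinv : ∀ x ∈ B, ∀ y : E, x * y = 1 → y * x = 1 → y ∈ B) {x : E} (hx : x ∈ B) :
    spectrum ℂ (ψ x) ⊆ spectrum ℂ x := by
  intro l hl
  by_contra hc
  rw [spectrum.mem_iff, not_not] at hc
  rw [spectrum.mem_iff] at hl
  apply hl
  obtain ⟨u, hu⟩ := hc
  have huB : (u : E) ∈ B := by
    rw [hu]
    exact B.sub_mem (B.algebraMap_mem l) hx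
  have hiB : ((u⁻¹ : Eˣ) : E) ∈ B := hinv _ huB _ u.mul_inv u.inv_mul
  have e1 : ψ (u : E) = algebraMap ℂ F l - ψ x := by
    rw [hu, h.sub (B.algebraMap_mem l) hx, Algebra.algebraMap_eq_smul_one, h.smul l 1 B.one_mem,
      h.one, Algebra.algebraMap_eq_smul_one]
  rw [← e1]
  refine ⟨⟨ψ (u : E), ψ ((u⁻¹ : Eˣ) : E), ?_, ?_⟩, rfl⟩
  · rw [← h.mul _ huB _ hiB, u.mul_inv, h.one]
  · rw [← h.mul _ hiB _ huB, u.inv_mul, h.one]

theorem ctr_sa {B : StarSubalgebra ℂ E} {ψ : E → F} (h : HomOn B ψ)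
    (hinv : ∀ x ∈ B, ∀ y : E, x * y = 1 → y * x = 1 → y ∈ B) {x : E} (hx : x ∈ B)
    (hs : IsSelfAdjoint x) : ‖ψ x‖ ≤ ‖x‖ := by
  have hs' : IsSelfAdjoint (ψ x) := by
    rw [IsSelfAdjoint, ← h.star x hx, hs.star_eq]
  have h1 : spectralRadius ℂ (ψ x) ≤ spectralRadius ℂ x :=
    iSup₂_mono' fun l hl => ⟨l, spec_sub h hinv hx hl, le_rfl⟩
  rw [hs.spectralRadius_eq_nnnorm, hs'.spectralRadius_eq_nnnorm] at h1
  exact_mod_cast h1

/-- **CTR** -/
theorem ctr {B : StarSubalgebra ℂ E} {ψ : E → F} (h : HomOn B ψ)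
    (hinv : ∀ x ∈ B, ∀ y : E, x * y = 1 → y * x = 1 → y ∈ B) {x : E} (hx : x ∈ B) :
    ‖ψ x‖ ≤ ‖x‖ := by
  have h1 := ctr_sa h hinv (mul_mem (star_mem hx) hx) (IsSelfAdjoint.star_mul_self x)
  rw [h.mul _ (star_mem hx) _ hx, h.star x hx, CStarRing.norm_star_mul_self,
    CStarRing.norm_star_mul_self] at h1
  exact (mul_self_le_mul_self_iff (norm_nonneg _) (norm_nonneg _)).2 h1

theorem ext_lim {B : StarSubalgebra ℂ E} {ψ : E → F} (h : HomOn B ψ)
    (hinv : ∀ x ∈ B, ∀ y : E, x * y = 1 → y * x = 1 → y ∈ B) {x : E}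
    (hx : x ∈ closure (B : Set E)) :
    ∃ y : F, ∀ b : ℕ → E, (∀ n, b n ∈ B) → Tendsto b atTop (𝓝 x) →
      Tendsto (fun n => ψ (b n)) atTop (𝓝 y) := by
  obtain ⟨b0, hb0, hl0⟩ := mem_closure_iff_seq_limit.1 hx
  have hc : CauchySeq fun n => ψ (b0 n) := by
    rw [Metric.cauchySeq_iff]
    intro ε hε
    obtain ⟨N, hN⟩ := Metric.cauchySeq_iff.1 hl0.cauchySeq ε hε
    refine ⟨N, fun m hm n hn => ?_⟩
    rw [dist_eq_norm, ← h.sub (hb0 m) (hb0 n)]
    exact (ctr h hinv (B.sub_mem (hb0 m) (hb0 n))).trans_lt (by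
      rw [← dist_eq_norm]
      exact hN m hm n hn)
  obtain ⟨y, hy⟩ := cauchySeq_tendsto_of_complete hc
  refine ⟨y, fun b hb hl => ?_⟩
  have h1 : Tendsto (fun n => ψ (b n) - ψ (b0 n)) atTop (𝓝 0) := by
    have h2 : Tendsto (fun n => b n - b0 n) atTop (𝓝 0) := by
      have := hl.sub hl0
      rwa [sub_self] at this
    refine squeeze_zero_norm (fun n => ?_) (tendsto_zero_iff_norm_tendsto_zero.1 h2)
    rw [← h.sub (hb n) (hb0 n)]
    exact ctr h hinv (B.sub_mem (hb n) (hb0 n))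
  have h3 := h1.add hy
  rw [zero_add] at h3
  refine h3.congr fun n => ?_
  rw [sub_add_cancel]

/-- **EXT** -/
theorem ext {B : StarSubalgebra ℂ E} {ψ : E → F} (h : HomOn B ψ)
    (hinv : ∀ x ∈ B, ∀ y : E, x * y = 1 → y * x = 1 → y ∈ B) :
    ∃ φ : E → F, HomOn B.topologicalClosure φ ∧ (∀ x ∈ B, φ x = ψ x) ∧
      ∀ C : Set F, (∀ x ∈ B, ψ x ∈ C) → ∀ x ∈ B.topologicalClosure, φ x ∈ closure C := by
  classical
  have hcl : ∀ x, x ∈ B.topologicalClosure ↔ x ∈ closure (B : Set E) := fun x => Iff.rfl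
  obtain ⟨φ, hφ⟩ : ∃ φ : E → F, ∀ x ∈ B.topologicalClosure, ∀ b : ℕ → E, (∀ n, b n ∈ B) →
      Tendsto b atTop (𝓝 x) → Tendsto (fun n => ψ (b n)) atTop (𝓝 (φ x)) := by
    refine ⟨fun x => if hx : x ∈ closure (B : Set E) then (ext_lim h hinv hx).choose else 0,
      fun x hx b hb hl => ?_⟩
    have hx' := (hcl x).1 hx
    simp only [dif_pos hx']
    exact (ext_lim h hinv hx').choose_spec b hb hl
  have hseq : ∀ x ∈ B.topologicalClosure, ∃ b : ℕ → E, (∀ n, b n ∈ B) ∧ Tendsto b atTop (𝓝 x) :=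
    fun x hx => mem_closure_iff_seq_limit.1 ((hcl x).1 hx)
  have hB : ∀ x ∈ B, φ x = ψ x := by
    intro x hx
    have h1 := hφ x (B.le_topologicalClosure hx) (fun _ => x) (fun _ => hx) tendsto_const_nhds
    exact tendsto_nhds_unique h1 tendsto_const_nhds
  refine ⟨φ, ⟨?_, ?_, ?_, ?_, ?_⟩, hB, ?_⟩
  · rw [hB 1 B.one_mem, h.one]
  · intro x hx y hy
    obtain ⟨b, hb, hl⟩ := hseq x hx
    obtain ⟨c, hc, hl'⟩ := hseq y hy
    have h1 := hφ (x + y) (add_mem hx hy) (fun n => b n + c n) (fun n => B.add_mem (hb n) (hc n))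
      (hl.add hl')
    refine tendsto_nhds_unique h1 (((hφ x hx b hb hl).add (hφ y hy c hc hl')).congr fun n => ?_)
    rw [h.add _ (hb n) _ (hc n)]
  · intro x hx y hy
    obtain ⟨b, hb, hl⟩ := hseq x hx
    obtain ⟨c, hc, hl'⟩ := hseq y hy
    have h1 := hφ (x * y) (mul_mem hx hy) (fun n => b n * c n) (fun n => B.mul_mem (hb n) (hc n))
      (hl.mul hl')
    refine tendsto_nhds_unique h1 (((hφ x hx b hb hl).mul (hφ y hy c hc hl')).congr fun n => ?_)
    rw [h.mul _ (hb n) _ (hc n)]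
  · intro a x hx
    obtain ⟨b, hb, hl⟩ := hseq x hx
    have h1 := hφ (a • x) (B.topologicalClosure.smul_mem hx a) (fun n => a • b n)
      (fun n => B.smul_mem (hb n) a) (hl.const_smul a)
    refine tendsto_nhds_unique h1 (((hφ x hx b hb hl).const_smul a).congr fun n => ?_)
    rw [h.smul a _ (hb n)]
  · intro x hx
    obtain ⟨b, hb, hl⟩ := hseq x hx
    have h1 := hφ (Star.star x) (star_mem hx) (fun n => Star.star (b n)) (fun n => star_mem (hb n))
      hl.star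
    refine tendsto_nhds_unique h1 ((hφ x hx b hb hl).star.congr fun n => ?_)
    rw [h.star _ (hb n)]
  · intro C hC x hx
    obtain ⟨b, hb, hl⟩ := hseq x hx
    exact mem_closure_of_tendsto (hφ x hx b hb hl) (Eventually.of_forall fun n => hC _ (hb n))

/-- test of the instances -/
noncomputable example (H : Type) [NormedAddCommGroup H] [InnerProductSpace ℂ H] [CompleteSpace H] :
    CStarAlgebra (H →L[ℂ] H) := inferInstance

end Pool.DA
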