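import Pool.Agent.Work.MP_118406_fr.Interface

set_option autoImplicit false

/-!
# THEOREM DA (MP_118406_an, helper49, helper60)

`Dir k` = the elements of `Alg k` whose free difference quotients are Hilbert-Schmidt.  It is a *-subalgebra,
closed under inverses; unital *-homomorphisms `Dir k' → Dir k` (no continuity) are contractive, extend to
`Alg k' → Alg k`, and if the range is weakly dense then `k' ≤ k`.
-/

open scoped InnerProductSpace ComplexConjugate Topology BigOperators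
open Set Filter Pool.SI

noncomputable section

namespace Pool.DA

/-- the domain of the free difference quotient -/
def Dir (k : ℕ) : Set (Fk k →L[ℂ] Fk k) := {x | x ∈ Alg k ∧ ∀ i, HS (dq i x)}

/-- closed under inverses of operators -/
def InvCl {H : Type} [NormedAddCommGroup H] [InnerProductSpace ℂ H] [CompleteSpace H]
    (B : StarSubalgebra ℂ (H →L[ℂ] H)) : Prop :=
  ∀ x ∈ B, ∀ y : H →L[ℂ] H, x * y = 1 → y * x = 1 → y ∈ B

/-- `HSM`: `‖x T e‖ ≤ ‖x‖ ‖T e‖`; the other side by the adjoint. -/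
def S_HSM : Prop := ∀ (k : ℕ) (T x : Fk k →L[ℂ] Fk k), HS T → HS (x * T) ∧ HS (T * x)

/-- `DST`: `⟪bs u, dq i x (bs v)⟫ = (x Ω) (u ++ i :: v.reverse)` and `(x* Ω) w = conj ((x Ω) w.reverse)`. -/
def S_DST : Prop := ∀ (k : ℕ) (x : Fk k →L[ℂ] Fk k), x ∈ Dir k → star x ∈ Dir k

/-- `SUB` (uses HSM, DST): Leibniz; `dq i (x⁻¹) = - x⁻¹ dq i x x⁻¹`. -/
def S_SUB : Prop := ∀ k : ℕ, ∃ B : StarSubalgebra ℂ (Fk k →L[ℂ] Fk k), (B : Set (Fk k →L[ℂ] Fk k)) = Dir k ∧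
  (∀ j : Fin k, (sc j : Fk k →L[ℂ] Fk k) ∈ B) ∧ InvCl B

/-- `CTR`: for `h = star x * x` the spectrum (over `ℂ`, in the bounded operators) of `ψ h` is contained in that of
`h` (if `algebraMap λ - h` has the inverse `g` then `g ∈ B` and `ψ g` is the inverse of `algebraMap λ - ψ h`);
`IsSelfAdjoint.spectralRadius_eq_nnnorm`; C*-identity. -/
def S_CTR : Prop := ∀ (H H' : Type) [NormedAddCommGroup H] [InnerProductSpace ℂ H] [CompleteSpace H]
  [NormedAddCommGroup H'] [InnerProductSpace ℂ H'] [CompleteSpace H']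
  (B : StarSubalgebra ℂ (H' →L[ℂ] H')), InvCl B → ∀ (ψ : B →⋆ₐ[ℂ] (H →L[ℂ] H)) (x : B),
  ‖ψ x‖ ≤ ‖(x : H' →L[ℂ] H')‖

/-- `EXT`: `ContinuousLinearMap.extend` of `ψ` to the closure `A'` of `B` (or `B.topologicalClosure`); products and
adjoints by density (`DenseRange.induction_on₂`, `isClosed_eq`). -/
def S_EXT : Prop := ∀ (H H' : Type) [NormedAddCommGroup H] [InnerProductSpace ℂ H] [CompleteSpace H]
  [NormedAddCommGroup H'] [InnerProductSpace ℂ H'] [CompleteSpace H']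
  (B A' : StarSubalgebra ℂ (H' →L[ℂ] H')) (A : StarSubalgebra ℂ (H →L[ℂ] H)),
  IsClosed (A : Set (H →L[ℂ] H)) → B ≤ A' → (A' : Set (H' →L[ℂ] H')) ⊆ closure B →
  ∀ ψ : B →⋆ₐ[ℂ] (H →L[ℂ] H), (∀ x, ψ x ∈ A) → (∀ x : B, ‖ψ x‖ ≤ ‖(x : H' →L[ℂ] H')‖) →
  ∃ φ : A' →⋆ₐ[ℂ] A, ∀ (x : B) (hx : (x : H' →L[ℂ] H') ∈ A'),
    ((φ ⟨x, hx⟩ : A) : H →L[ℂ] H) = ψ x

end Pool.DA
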