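import Pool.Agent.Work.MP_118406_si.B_HSB

/-!
# The algebra of smooth elements

`e` a Hilbert basis, `D x = r* x - x r*` for the members `r` of a family, `A` a closed *-subalgebra which
commutes with `r + r*`. The `x ∈ A` with Hilbert-Schmidt `D x` form a *-subalgebra closed under inverses.
-/

set_option autoImplicit false

open Filter Topology

noncomputable section

namespace Pool.DA

variable {H : Type} [NormedAddCommGroup H] [InnerProductSpace ℂ H]

/-- Hilbert-Schmidt operators -/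
def HSe {ι : Type} (e : HilbertBasis ι ℂ H) (T : H →L[ℂ] H) : Prop :=
  Summable (fun w => ‖T (e w)‖ ^ 2)

theorem hs_zero {ι : Type} (e : HilbertBasis ι ℂ H) : HSe e (0 : H →L[ℂ] H) := by
  unfold HSe
  simp [summable_zero]

theorem hs_comb {ι : Type} (e : HilbertBasis ι ℂ H) {S T : H →L[ℂ] H} (c : ℂ) (hT : HSe e T)
    (hS : HSe e S) : HSe e (T + c • S) := Pool.SI.HSB_comb (fun w => e w) S T c hT hS

theorem hs_add {ι : Type} (e : HilbertBasis ι ℂ H) {S T : H →L[ℂ] H} (hT : HSe e T)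
    (hS : HSe e S) : HSe e (T + S) := by
  have := hs_comb e 1 hT hS
  rwa [one_smul] at this

theorem hs_smul {ι : Type} (e : HilbertBasis ι ℂ H) {S : H →L[ℂ] H} (c : ℂ) (hS : HSe e S) :
    HSe e (c • S) := by
  have := hs_comb e c (hs_zero e) hS
  rwa [zero_add] at this

theorem hs_left {ι : Type} (e : HilbertBasis ι ℂ H) {T : H →L[ℂ] H} (a : H →L[ℂ] H)
    (hT : HSe e T) : HSe e (a * T) := by
  refine Summable.of_nonneg_of_le (fun v => sq_nonneg _) (fun v => ?_) (hT.mul_left (‖a‖ ^ 2))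
  rw [← mul_pow]
  exact pow_le_pow_left₀ (norm_nonneg _) (a.le_opNorm _) 2

variable [CompleteSpace H]

theorem hs_star {ι : Type} (e : HilbertBasis ι ℂ H) {T : H →L[ℂ] H} (hT : HSe e T) :
    HSe e (ContinuousLinearMap.adjoint T) := by
  have h1 := Pool.SI.HSB_swap e e T
  have h3 : ∑' v, ENNReal.ofReal (‖(ContinuousLinearMap.adjoint T) (e v)‖ ^ 2) ≠ ⊤ := by
    rw [← h1, ← ENNReal.ofReal_tsum_of_nonneg (fun v => sq_nonneg _) hT]
    exact ENNReal.ofReal_ne_top
  refine (ENNReal.summable_toReal h3).congr fun w => ?_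
  rw [ENNReal.toReal_ofReal (sq_nonneg _)]

theorem hs_right {ι : Type} (e : HilbertBasis ι ℂ H) {T : H →L[ℂ] H} (a : H →L[ℂ] H)
    (hT : HSe e T) : HSe e (T * a) := by
  have h1 := hs_star e (hs_left e (ContinuousLinearMap.adjoint a) (hs_star e hT))
  rw [← ContinuousLinearMap.star_eq_adjoint, ← ContinuousLinearMap.star_eq_adjoint,
    ← ContinuousLinearMap.star_eq_adjoint, ← star_mul, star_star] at h1
  exact h1

/-- the difference quotient -/
def dd (r x : H →L[ℂ] H) : H →L[ℂ] H :=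
  ContinuousLinearMap.adjoint r * x - x * ContinuousLinearMap.adjoint r

theorem dd_mul (r x y : H →L[ℂ] H) : dd r (x * y) = dd r x * y + x * dd r y := by
  unfold dd
  rw [sub_mul, mul_sub]
  simp only [mul_assoc]
  abel

theorem dd_add (r x y : H →L[ℂ] H) : dd r (x + y) = dd r x + dd r y := by
  unfold dd
  rw [mul_add, add_mul]
  abel

theorem dd_smul (r : H →L[ℂ] H) (c : ℂ) (x : H →L[ℂ] H) : dd r (c • x) = c • dd r x := by
  unfold dd
  rw [mul_smul_comm, smul_mul_assoc, smul_sub]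

theorem dd_one (r : H →L[ℂ] H) : dd r 1 = 0 := by
  unfold dd
  rw [mul_one, one_mul, sub_self]

theorem dd_star (r x : H →L[ℂ] H)
    (h : ContinuousLinearMap.adjoint x * (r + ContinuousLinearMap.adjoint r) =
      (r + ContinuousLinearMap.adjoint r) * ContinuousLinearMap.adjoint x) :
    dd r (ContinuousLinearMap.adjoint x) = ContinuousLinearMap.adjoint (dd r x) := by
  unfold dd
  simp only [← ContinuousLinearMap.star_eq_adjoint] at h ⊢
  rw [star_sub, star_mul, star_mul, star_star]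
  rw [mul_add, add_mul] at h
  have h2 : star r * star x - star x * star r = star x * r - r * star x := by
    rw [sub_eq_sub_iff_add_eq_add, add_comm (star r * star x), ← h]
    
  exact h2

/-- **SMO** -/
theorem smo_inv {ι κ : Type} (e : HilbertBasis ι ℂ H) (r : κ → (H →L[ℂ] H))
    (A : StarSubalgebra ℂ (H →L[ℂ] H)) (hA : IsClosed (A : Set (H →L[ℂ] H))) {x : H →L[ℂ] H}
    (hx : x ∈ A) (hD : ∀ i, HSe e (dd (r i) x)) {y : H →L[ℂ] H} (hxy : x * y = 1) (hyx : y * x = 1) :
    y ∈ A ∧ ∀ i, HSe e (dd (r i) y) := by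
  constructor
  · have hu : IsUnit ((⟨x, hx⟩ : A) : H →L[ℂ] H) := ⟨⟨x, y, hxy, hyx⟩, rfl⟩
    have : IsClosed (A : Set (H →L[ℂ] H)) := hA
    obtain ⟨u, hu'⟩ := (StarSubalgebra.coe_isUnit (S := A) (hS := hA)).1 hu
    have h1 : ((u⁻¹ : Aˣ) : A) * (u : A) = 1 := u.inv_mul
    have h2 : (((u⁻¹ : Aˣ) : A) : H →L[ℂ] H) * x = 1 := by
      have := congrArg (fun z : A => (z : H →L[ℂ] H)) h1
      simpa [hu'] using this
    have h3 : y = (((u⁻¹ : Aˣ) : A) : H →L[ℂ] H) := by
      rw [← one_mul y, ← h2, mul_assoc, hxy, mul_one]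
    rw [h3]
    exact ((u⁻¹ : Aˣ) : A).2
  · intro i
    have h1 : dd (r i) x * y + x * dd (r i) y = 0 := by rw [← dd_mul, hxy, dd_one]
    have h2 : dd (r i) y = (-1 : ℂ) • (y * (dd (r i) x * y)) := by
      have h3 : y * (dd (r i) x * y + x * dd (r i) y) = 0 := by rw [h1, mul_zero]
      rw [mul_add, ← mul_assoc y x, hyx, one_mul] at h3
      rw [neg_one_smul]
      exact (neg_eq_of_add_eq_zero_right h3).symm
    rw [h2]
    exact hs_smul e _ (hs_left e _ (hs_right e _ (hD i)))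

end Pool.DA
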